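import Pool.Agent.H90.Clone.Defs

set_option autoImplicit false

/-!
# Areas of clones
-/

namespace Pool.Agent.H90.Clone

open MeasureTheory Pointwise Set

lemma volume_isometry (g : ℂ ≃ᵢ ℂ) (A : Set ℂ) : volume (g '' A) = volume A := by
  set L : ℂ ≃ₗᵢ[ℝ] ℂ := g.toRealLinearIsometryEquiv with hL
  have hg : ∀ z, g z = L z + g 0 := by
    intro z
    have := g.toRealLinearIsometryEquiv_apply z
    rw [hL, this]
    ring
  have h1 : g '' A = (fun z => z + g 0) '' (L '' A) := by
    rw [image_image]
    exact image_congr fun z _ => hg z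
  rw [h1, image_add_right, measure_preimage_add_right]
  have h2 : L '' A = L.symm ⁻¹' A := L.image_eq_preimage_symm A
  rw [h2]
  exact (MeasurePreserving.measure_preimage_equiv (f := L.symm.toMeasurableEquiv)
    L.symm.measurePreserving A)

lemma area_clone (g : ℂ ≃ᵢ ℂ) {c : ℝ} (F : Set ℂ) : area (g '' (c • F)) = c ^ 2 * area F := by
  rw [area, area, volume_isometry, Measure.addHaar_smul, ENNReal.toReal_mul,
    ENNReal.toReal_ofReal (abs_nonneg _), Complex.finrank_real_complex, abs_of_nonneg (sq_nonneg c)]

lemma area_pos {F : Set ℂ} (hF : IsConvexFigure F) : 0 < area F := by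
  rw [area]
  apply ENNReal.toReal_pos
  · have h1 : 0 < volume (interior F) := isOpen_interior.measure_pos volume hF.2.2
    exact (h1.trans_le (measure_mono interior_subset)).ne'
  · exact hF.1.measure_lt_top.ne

end Pool.Agent.H90.Clone
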