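import Pool.Agent.H90.Clone.Main

set_option autoImplicit false

/-!
# All families of total square-sum at most `1/2 + δ`
-/

namespace Pool.Agent.H90.Clone

open Complex Set

variable {u v : ℂ}

lemma sorted_list {n : ℕ} (c : Fin n → ℝ) : ∃ l : List (Fin n), l.Nodup ∧ (∀ i, i ∈ l) ∧
    l.Pairwise (fun i j => c j ≤ c i) ∧ sq c l = ∑ i, c i ^ 2 := by
  classical
  set r : Fin n → Fin n → Prop := fun i j => c j ≤ c i with hr
  have h1 : Std.Total r := ⟨fun a b => le_total (c b) (c a)⟩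
  have h2 : IsTrans (Fin n) r := ⟨fun a b d hab hbd => le_trans hbd hab⟩
  have hp := List.perm_insertionSort r (List.finRange n)
  refine ⟨(List.finRange n).insertionSort r, ?_, ?_, ?_, ?_⟩
  · exact hp.nodup_iff.mpr (List.nodup_finRange n)
  · intro i
    exact hp.mem_iff.mpr (List.mem_finRange i)
  · exact List.pairwise_insertionSort r _
  · rw [Fin.sum_univ_def, sq]
    exact (hp.map _).sum_eq

/-- unit container -/
lemma good_unit (h : det u v ≠ 0) {w : ℂ} {cx cy η r : ℝ} (ha : Arr u v w cx cy η r)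
    {n : ℕ} {c : Fin n → ℝ} (hc : ∀ i, 0 < c i)
    (hsum : ∑ i, c i ^ 2 ≤ 1 / 2 + min (1 / 50) (min (2 * η ^ 2) (r ^ 2 / 2))) :
    Good u v n c 1 := by
  classical
  obtain ⟨l, hn, hl, hs, hsq⟩ := sorted_list c
  rw [← hsq] at hsum
  have d1 : min (1 / 50) (min (2 * η ^ 2) (r ^ 2 / 2)) ≤ 1 / 50 := min_le_left _ _
  have d2 : min (1 / 50) (min (2 * η ^ 2) (r ^ 2 / 2)) ≤ 2 * η ^ 2 :=
    (min_le_right _ _).trans (min_le_left _ _)
  have d3 : min (1 / 50) (min (2 * η ^ 2) (r ^ 2 / 2)) ≤ r ^ 2 / 2 :=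
    (min_le_right _ _).trans (min_le_right _ _)
  set δ := min (1 / 50) (min (2 * η ^ 2) (r ^ 2 / 2)) with hδ
  cases l with
  | nil =>
    exact good_of_Pk h hc hl (Pk.nil _ _ _ _)
  | cons i0 t =>
    have hi0 := hc i0
    have hc1 : c i0 ^ 2 ≤ 1 / 2 + δ := by
      rw [sq_cons] at hsum
      have := sq_nonneg' (c := c) t
      linarith
    have hi01 : c i0 ≤ 1 := by nlinarith
    by_cases hA : sq c (i0 :: t) ≤ c i0 ^ 2 + (1 - c i0) * (1 - c i0)
    · -- Meir and Moser
      have := meirMoser (c := c) (i0 :: t).length (i0 :: t) le_rfl hn hs (fun i _ => hc i) 1 1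
        (fun i t' hit => by
          have : i = i0 := (List.cons.inj hit).1.symm
          subst this
          exact ⟨hi01, hi01, hA⟩) 0 0
      rw [zero_add] at this
      exact good_of_Pk h hc hl this
    · push Not at hA
      have hdev : 2 * (c i0 - 1 / 2) ^ 2 < δ := by nlinarith
      have hdev1 : (c i0 - 1 / 2) ^ 2 < 1 / 100 := by linarith
      have hlo : 2 / 5 ≤ c i0 := by nlinarith
      have hhi : c i0 ≤ 3 / 5 := by nlinarith
      cases t with
      | nil =>
        exfalso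
        rw [sq_cons, sq_nil] at hA
        nlinarith
      | cons i1 l =>
        by_cases hB : c i0 + c i1 ≤ 1
        · exact good_of_Pk h hc hl
            (twoInRow i0 i1 l hn hs (fun i _ => hc i) hB hlo hhi (by linarith))
        · push Not at hB
          rw [sq_cons, sq_cons] at hsum
          have h01 : 1 / 2 < c i0 ^ 2 + c i1 ^ 2 := by nlinarith [sq_nonneg (c i0 - c i1)]
          refine good_two h ha hc i0 i1 l hl hn hs ?_ (by linarith)
          by_contra hcon
          push Not at hcon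
          have hη := ha.eta
          nlinarith

lemma Cen_neg_left (u v : ℂ) : Cen (-u) v = Cen u v := by
  ext z
  constructor
  · rintro ⟨x, y, hx, hy, rfl⟩
    exact ⟨-x, y, by rwa [abs_neg], hy, by push_cast; ring⟩
  · rintro ⟨x, y, hx, hy, rfl⟩
    exact ⟨-x, y, by rwa [abs_neg], hy, by push_cast; ring⟩

lemma Cen_swap (u v : ℂ) : Cen v u = Cen u v := by
  ext z
  constructor
  · rintro ⟨x, y, hx, hy, rfl⟩
    exact ⟨y, x, hy, hx, by ring⟩
  · rintro ⟨x, y, hx, hy, rfl⟩
    exact ⟨y, x, hy, hx, by ring⟩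

lemma Good.congr {u v u' v' : ℂ} (h : Cen u v = Cen u' v') {n : ℕ} {c : Fin n → ℝ} {s : ℝ}
    (hg : Good u v n c s) : Good u' v' n c s := by
  unfold Good at *
  rwa [h] at hg

/-- a parallelogram that is not a square -/
lemma good_nonsquare (h : det u v ≠ 0) (hns : ¬ (dot u v = 0 ∧ ns u = ns v)) :
    ∃ δ : ℝ, 0 < δ ∧ ∀ (n : ℕ) (c : Fin n → ℝ), (∀ i, 0 < c i) →
      ∑ i, c i ^ 2 ≤ 1 / 2 + δ → Good u v n c 1 := by
  have main : ∀ u' v' : ℂ, Cen u' v' = Cen u v → det u' v' ≠ 0 →
      (0 < dot u' v' ∨ (dot u' v' = 0 ∧ ns v' < ns u')) →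
      ∃ δ : ℝ, 0 < δ ∧ ∀ (n : ℕ) (c : Fin n → ℝ), (∀ i, 0 < c i) →
        ∑ i, c i ^ 2 ≤ 1 / 2 + δ → Good u v n c 1 := by
    intro u' v' he hd hcase
    obtain ⟨w, cx, cy, η, r, ha⟩ : ∃ (w : ℂ) (cx cy η r : ℝ), Arr u' v' w cx cy η r := by
      rcases hcase with hcase | ⟨h1, h2⟩
      · exact arr_oblique hd hcase
      · exact arr_rect hd h1 h2
    have hη := ha.eta
    have hr := ha.rpos
    refine ⟨min (1 / 50) (min (2 * η ^ 2) (r ^ 2 / 2)), by positivity, ?_⟩
    intro n c hc hsum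
    exact (good_unit hd ha hc hsum).congr he
  rcases lt_trichotomy (dot u v) 0 with hd | hd | hd
  · refine main (-u) v (Cen_neg_left u v) ?_ (Or.inl ?_)
    · have : det (-u) v = -det u v := by unfold det; simp; ring
      rw [this]
      exact neg_ne_zero.mpr h
    · have : dot (-u) v = -dot u v := by unfold dot; simp; ring
      rw [this]
      linarith
  · rcases lt_trichotomy (ns v) (ns u) with hn | hn | hn
    · exact main u v rfl h (Or.inr ⟨hd, hn⟩)
    · exact absurd ⟨hd, hn.symm⟩ hns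
    · refine main v u (Cen_swap u v) ?_ (Or.inr ⟨?_, hn⟩)
      · have : det v u = -det u v := by unfold det; ring
        rw [this]
        exact neg_ne_zero.mpr h
      · have : dot v u = dot u v := by unfold dot; ring
        rw [this, hd]
  · exact main u v rfl h (Or.inl hd)

/-- scaling the container -/
lemma Good.scale {n : ℕ} {c : Fin n → ℝ} {s : ℝ} (hs : 0 < s)
    (hg : Good u v n (fun i => c i / s) 1) : Good u v n c s := by
  obtain ⟨w, b, hw, hb, hsep⟩ := hg
  have hs' : (s : ℂ) ≠ 0 := by exact_mod_cast hs.ne'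
  have hcs : ∀ i, ((c i : ℝ) : ℂ) = s * ((c i / s : ℝ) : ℂ) := by
    intro i
    push_cast
    field_simp
  refine ⟨w, fun i => s * b i, hw, ?_, ?_⟩
  · intro i z hz
    obtain ⟨z', hz', he⟩ := hb i z hz
    refine ⟨z', hz', ?_⟩
    rw [hcs i]
    simp only [ofReal_one, one_mul] at he
    rw [← he]
    ring
  · intro i j hij
    obtain ⟨f, t, hf, h1, h2⟩ := hsep i j hij
    refine ⟨f, s * t, hf, ?_, ?_⟩
    · rintro _ ⟨z, hz, rfl⟩
      have := h1 _ ⟨z, hz, rfl⟩
      have e : w i * (((c i : ℝ) : ℂ) * z) + s * b i = s • (w i * (((c i / s : ℝ) : ℂ) * z) + b i) := by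
        rw [real_smul, hcs i]
        ring
      simp only [e, map_smul, smul_eq_mul]
      exact mul_le_mul_of_nonneg_left this hs.le
    · rintro _ ⟨z, hz, rfl⟩
      have := h2 _ ⟨z, hz, rfl⟩
      have e : w j * (((c j : ℝ) : ℂ) * z) + s * b j = s • (w j * (((c j / s : ℝ) : ℂ) * z) + b j) := by
        rw [real_smul, hcs j]
        ring
      simp only [e, map_smul, smul_eq_mul]
      exact mul_le_mul_of_nonneg_left this hs.le

end Pool.Agent.H90.Clone
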