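import Mathlib

set_option autoImplicit false

/-!
# Clone packing (MP_6c2b1b_co): definitions. The Euclidean plane is `ℂ` with its usual norm.
-/

namespace Pool.Agent.H90.Clone

open MeasureTheory Pointwise

/-- A convex figure: a compact convex set with nonempty interior. -/
def IsConvexFigure (F : Set ℂ) : Prop := IsCompact F ∧ Convex ℝ F ∧ (interior F).Nonempty

/-- `G` is an `F`-clone: the image of `F` under a similarity of the plane. -/
def IsClone (F G : Set ℂ) : Prop := ∃ (c : ℝ) (g : ℂ ≃ᵢ ℂ), 0 < c ∧ G = g '' (c • F)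

/-- The family `G` can be packed in `Q`: suitable isometric images lie in `Q` and no two of them
share an interior point. -/
def CanPack {n : ℕ} (G : Fin n → Set ℂ) (Q : Set ℂ) : Prop :=
  ∃ g : Fin n → (ℂ ≃ᵢ ℂ), (∀ i, g i '' G i ⊆ Q) ∧
    ∀ i j, i ≠ j → Disjoint (interior (g i '' G i)) (interior (g j '' G j))

/-- The area of a plane set. -/
noncomputable def area (G : Set ℂ) : ℝ := (volume G).toReal

/-- `S` is admissible for `F`: every finite family of `F`-clones with total area `1` can be packed
in some `F`-clone of area `S`. The clone packing constant `S(F)` is the least admissible number. -/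
def Admissible (F : Set ℂ) (S : ℝ) : Prop :=
  ∀ (n : ℕ) (G : Fin n → Set ℂ), (∀ i, IsClone F (G i)) → ∑ i, area (G i) = 1 →
    ∃ Q : Set ℂ, IsClone F Q ∧ area Q = S ∧ CanPack G Q

/-- The parallelogram with corner `o` and side vectors `u`, `v`. -/
def Par (o u v : ℂ) : Set ℂ :=
  {z | ∃ x y : ℝ, 0 ≤ x ∧ x ≤ 1 ∧ 0 ≤ y ∧ y ≤ 1 ∧ z = o + x * u + y * v}

end Pool.Agent.H90.Clone
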