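import Pool.Agent.H90.Clone.Geom

set_option autoImplicit false

/-!
# Existence of the arrangement for a parallelogram that is not a square
-/

namespace Pool.Agent.H90.Clone

open Complex Set

variable {u v : ℂ}

/-- squared norm -/
noncomputable def ns (u : ℂ) : ℝ := u.re ^ 2 + u.im ^ 2

lemma lagrange (u v : ℂ) : ns u * ns v = dot u v ^ 2 + det u v ^ 2 := by
  unfold ns dot det
  ring

lemma ns_pos_left (h : det u v ≠ 0) : 0 < ns u := by
  have h1 : 0 ≤ ns u := by unfold ns; positivity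
  rcases h1.eq_or_lt with h2 | h2
  · exfalso
    have h3 := lagrange u v
    rw [← h2, zero_mul] at h3
    have h4 : 0 < det u v ^ 2 := by positivity
    nlinarith [sq_nonneg (dot u v)]
  · exact h2

lemma ns_pos_right (h : det u v ≠ 0) : 0 < ns v := by
  have h1 : 0 ≤ ns v := by unfold ns; positivity
  rcases h1.eq_or_lt with h2 | h2
  · exfalso
    have h3 := lagrange u v
    rw [← h2, mul_zero] at h3
    have h4 : 0 < det u v ^ 2 := by positivity
    nlinarith [sq_nonneg (dot u v)]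
  · exact h2

/-- The arrangement with `σ = s0 / det u v` -/
lemma arr_sigma (h : det u v ≠ 0) (σ c0 : ℝ) (hσ : 0 < σ) (hc : c0 ^ 2 + (det u v * σ) ^ 2 = 1)
    (hB0 : 0 ≤ dot u v) (hcB : dot u v * σ ≤ c0) (hX : (c0 + dot u v * σ + ns v * σ) / 2 < 1)
    (hY : (ns u * σ + c0 - dot u v * σ) / 2 < 1)
    (hκ : 0 < (1 - ns u * σ) * (c0 + dot u v * σ - 1)) :
    ∃ (w : ℂ) (cx cy η r : ℝ), Arr u v w cx cy η r := by
  have e : det u v * σ / det u v = σ := by field_simp
  refine arr_of h c0 (det u v * σ) (ns u * σ) (dot u v * σ) (ns v * σ) hc ?_ ?_ ?_ ?_ ?_ ?_ hcB hX hY hκ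
  · rw [e]; rfl
  · rw [e]
  · rw [e]; rfl
  · exact mul_nonneg (ns_pos_left h).le hσ.le
  · exact mul_nonneg (ns_pos_right h).le hσ.le
  · exact mul_nonneg hB0 hσ.le

/-- oblique case -/
lemma arr_oblique (h : det u v ≠ 0) (hg : 0 < dot u v) :
    ∃ (w : ℂ) (cx cy η r : ℝ), Arr u v w cx cy η r := by
  have hu := ns_pos_left h
  have hv := ns_pos_right h
  have hd : 0 < det u v ^ 2 := by positivity
  set N := ns u + ns v + dot u v + det u v ^ 2 + 1 with hN
  have hN0 : 0 < N := by positivity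
  set σ := min (1 / (4 * N)) (dot u v / (2 * det u v ^ 2)) with hσd
  have hσ : 0 < σ := lt_min (by positivity) (by positivity)
  have hσ1 : σ * N ≤ 1 / 4 := by
    have : σ ≤ 1 / (4 * N) := min_le_left _ _
    calc σ * N ≤ 1 / (4 * N) * N := mul_le_mul_of_nonneg_right this hN0.le
      _ = 1 / 4 := by field_simp
  have hσ2 : det u v ^ 2 * σ ≤ dot u v / 2 := by
    have : σ ≤ dot u v / (2 * det u v ^ 2) := min_le_right _ _
    calc det u v ^ 2 * σ ≤ det u v ^ 2 * (dot u v / (2 * det u v ^ 2)) :=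
          mul_le_mul_of_nonneg_left this hd.le
      _ = dot u v / 2 := by field_simp
  have b1 : ns u * σ ≤ 1 / 4 := by nlinarith
  have b2 : ns v * σ ≤ 1 / 4 := by nlinarith
  have b3 : dot u v * σ ≤ 1 / 4 := by nlinarith
  have b4 : det u v ^ 2 * σ ≤ 1 / 4 := by nlinarith
  have b5 : σ ≤ 1 / 4 := by nlinarith
  have p1 : 0 < ns u * σ := by positivity
  have p2 : 0 < ns v * σ := by positivity
  have p3 : 0 < dot u v * σ := by positivity
  have p4 : 0 < det u v ^ 2 * σ := by positivity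
  set T := det u v ^ 2 * σ ^ 2 with hT
  have hT0 : 0 < T := by positivity
  have hT1 : T ≤ 1 / 16 := by
    have : T = (det u v ^ 2 * σ) * σ := by rw [hT]; ring
    rw [this]
    nlinarith
  have hT2 : T ≤ dot u v * σ / 2 := by
    have : T = (det u v ^ 2 * σ) * σ := by rw [hT]; ring
    rw [this]
    nlinarith
  set c0 := Real.sqrt (1 - T) with hc0
  have hc0sq : c0 ^ 2 = 1 - T := Real.sq_sqrt (by linarith)
  have hc0nn : 0 ≤ c0 := Real.sqrt_nonneg _
  have hc0le : c0 ≤ 1 := by
    by_contra hcon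
    push Not at hcon
    nlinarith
  have hc0ge : 1 - T ≤ c0 := by
    rw [← hc0sq]
    nlinarith
  apply arr_sigma h σ c0 hσ
  · rw [hc0sq, hT]; ring
  · exact hg.le
  · linarith
  · linarith
  · linarith
  · apply mul_pos
    · linarith
    · linarith

/-- rectangular case -/
lemma arr_rect (h : det u v ≠ 0) (hg : dot u v = 0) (huv : ns v < ns u) :
    ∃ (w : ℂ) (cx cy η r : ℝ), Arr u v w cx cy η r := by
  have hu := ns_pos_left h
  have hv := ns_pos_right h
  have hlag := lagrange u v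
  rw [hg] at hlag
  set β := ns v / ns u with hβ
  have hβ0 : 0 < β := by positivity
  have hβ1 : β < 1 := by rw [hβ, div_lt_one hu]; exact huv
  set θ := min (β / 4) ((1 - β) / 3) with hθ
  have hθ0 : 0 < θ := lt_min (by positivity) (by linarith)
  have hθ1 : θ ≤ β / 4 := min_le_left _ _
  have hθ2 : θ ≤ (1 - β) / 3 := min_le_right _ _
  set σ := (1 + θ) / ns u with hσd
  have hσ : 0 < σ := by positivity
  have eA : ns u * σ = 1 + θ := by rw [hσd]; field_simp
  have eD : ns v * σ = β * (1 + θ) := by rw [hσd, hβ]; field_simp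
  have eT : (det u v * σ) ^ 2 = β * (1 + θ) ^ 2 := by
    have : (det u v * σ) ^ 2 = (ns u * σ) * (ns v * σ) := by
      linear_combination (-(σ ^ 2)) * hlag
    rw [this, eA, eD]
    ring
  have hT1 : β * (1 + θ) ^ 2 < 1 := by
    have h1 : (1 + θ) ^ 2 ≤ 1 + (7 / 9) * (1 - β) := by nlinarith
    have h2 : β * (1 + θ) ^ 2 ≤ β * (1 + (7 / 9) * (1 - β)) := mul_le_mul_of_nonneg_left h1 hβ0.le
    nlinarith
  set T := β * (1 + θ) ^ 2 with hT
  have hT0 : β ≤ T := by
    have h1 : β * 1 ≤ β * (1 + θ) ^ 2 :=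
      mul_le_mul_of_nonneg_left (by nlinarith) hβ0.le
    linarith
  set c0 := Real.sqrt (1 - T) with hc0
  have hc0sq : c0 ^ 2 = 1 - T := Real.sq_sqrt (by linarith)
  have hc0nn : 0 ≤ c0 := Real.sqrt_nonneg _
  have hc0lt : c0 ≤ 1 - β / 2 := by
    by_contra hcon
    push Not at hcon
    nlinarith
  have hD1 : β * (1 + θ) < 1 := by nlinarith
  apply arr_sigma h σ c0 hσ
  · rw [hc0sq, eT]; ring
  · exact hg.ge
  · rw [hg]; linarith
  · rw [hg, eD]; linarith
  · rw [hg, eA]; linarith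
  · rw [hg, eA]
    have : (1 - (1 + θ)) * (c0 + 0 * σ - 1) = θ * (1 - c0) := by ring
    rw [this]
    apply mul_pos hθ0
    linarith

end Pool.Agent.H90.Clone
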