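import Pool.Agent.H90.Clone.Squares

set_option autoImplicit false

/-!
# Coordinates with respect to two vectors, and the placement of two large copies
-/

namespace Pool.Agent.H90.Clone

open Complex Set

/-- determinant of two vectors -/
noncomputable def det (u v : ℂ) : ℝ := u.re * v.im - u.im * v.re

/-- inner product -/
noncomputable def dot (u v : ℂ) : ℝ := u.re * v.re + u.im * v.im

/-- first coordinate with respect to the basis `u, v` -/
noncomputable def fx (u v : ℂ) : ℂ →L[ℝ] ℝ :=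
  (det u v)⁻¹ • (v.im • Complex.reCLM - v.re • Complex.imCLM)

/-- second coordinate with respect to the basis `u, v` -/
noncomputable def fy (u v : ℂ) : ℂ →L[ℝ] ℝ :=
  (det u v)⁻¹ • (u.re • Complex.imCLM - u.im • Complex.reCLM)

lemma fx_apply (u v z : ℂ) : fx u v z = (det u v)⁻¹ * (v.im * z.re - v.re * z.im) := by
  simp [fx]

lemma fy_apply (u v z : ℂ) : fy u v z = (det u v)⁻¹ * (u.re * z.im - u.im * z.re) := by
  simp [fy]

variable {u v : ℂ}

lemma fx_comb (h : det u v ≠ 0) (x y : ℝ) : fx u v (x * u + y * v) = x := by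
  rw [fx_apply, det] at *
  simp only [add_re, mul_re, ofReal_re, ofReal_im, add_im, mul_im]
  field_simp
  ring

lemma fy_comb (h : det u v ≠ 0) (x y : ℝ) : fy u v (x * u + y * v) = y := by
  rw [fy_apply, det] at *
  simp only [add_re, mul_re, ofReal_re, ofReal_im, add_im, mul_im]
  field_simp
  ring

lemma fx_ne (h : det u v ≠ 0) : fx u v ≠ 0 := by
  intro h0
  have := fx_comb h 1 0
  rw [h0] at this
  simp at this

lemma fy_ne (h : det u v ≠ 0) : fy u v ≠ 0 := by
  intro h0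
  have := fy_comb h 0 1
  rw [h0] at this
  simp at this

lemma comb_eq (h : det u v ≠ 0) (z : ℂ) : z = (fx u v z : ℝ) * u + (fy u v z : ℝ) * v := by
  apply Complex.ext
  · simp only [add_re, mul_re, ofReal_re, ofReal_im]
    rw [fx_apply, fy_apply]
    rw [det] at *
    field_simp
    ring
  · simp only [add_im, mul_im, ofReal_re, ofReal_im]
    rw [fx_apply, fy_apply]
    rw [det] at *
    field_simp
    ring

/-- the centred parallelogram -/
def Cen (u v : ℂ) : Set ℂ := {z | ∃ x y : ℝ, |x| ≤ 1 / 2 ∧ |y| ≤ 1 / 2 ∧ z = x * u + y * v}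

lemma mem_Cen (h : det u v ≠ 0) (z : ℂ) :
    z ∈ Cen u v ↔ |fx u v z| ≤ 1 / 2 ∧ |fy u v z| ≤ 1 / 2 := by
  constructor
  · rintro ⟨x, y, hx, hy, rfl⟩
    rw [fx_comb h, fy_comb h]
    exact ⟨hx, hy⟩
  · rintro ⟨hx, hy⟩
    exact ⟨_, _, hx, hy, comb_eq h z⟩

/-- Bounds of a linear functional on the centred parallelogram. -/
lemma bound_Cen (f : ℂ →L[ℝ] ℝ) {z : ℂ} (hz : z ∈ Cen u v) : |f z| ≤ (|f u| + |f v|) / 2 := by
  obtain ⟨x, y, hx, hy, rfl⟩ := hz
  have h1 : f (x * u + y * v) = x * f u + y * f v := by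
    rw [map_add]
    have e1 : ((x : ℂ) * u) = x • u := by rw [real_smul]
    have e2 : ((y : ℂ) * v) = y • v := by rw [real_smul]
    rw [e1, e2, map_smul, map_smul, smul_eq_mul, smul_eq_mul]
  rw [h1]
  calc |x * f u + y * f v| ≤ |x * f u| + |y * f v| := abs_add_le _ _
    _ = |x| * |f u| + |y| * |f v| := by rw [abs_mul, abs_mul]
    _ ≤ 1 / 2 * |f u| + 1 / 2 * |f v| := by
        gcongr
    _ = _ := by ring

/-- a linear functional that separates two sets -/
def SepSets (A B : Set ℂ) : Prop :=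
  ∃ (f : ℂ →L[ℝ] ℝ) (t : ℝ), f ≠ 0 ∧ (∀ z ∈ A, f z ≤ t) ∧ (∀ z ∈ B, t ≤ f z)

lemma SepSets.symm {A B : Set ℂ} (h : SepSets A B) : SepSets B A := by
  obtain ⟨f, t, hf, h1, h2⟩ := h
  refine ⟨-f, -t, by simpa using hf, fun z hz => ?_, fun z hz => ?_⟩
  · simpa using h2 z hz
  · simpa using h1 z hz

lemma SepSets.mono {A B A' B' : Set ℂ} (h : SepSets A B) (hA : A' ⊆ A) (hB : B' ⊆ B) :
    SepSets A' B' := by
  obtain ⟨f, t, hf, h1, h2⟩ := h
  exact ⟨f, t, hf, fun z hz => h1 z (hA hz), fun z hz => h2 z (hB hz)⟩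

lemma SepSets.disjoint {A B : Set ℂ} (h : SepSets A B) : Disjoint (interior A) (interior B) := by
  obtain ⟨f, t, hf, h1, h2⟩ := h
  rw [Set.disjoint_iff]
  rintro z ⟨hzA, hzB⟩
  exfalso
  apply hf
  have hopen : interior A ∩ interior B ∈ nhds z := (isOpen_interior.inter isOpen_interior).mem_nhds ⟨hzA, hzB⟩
  have hval : ∀ w ∈ interior A ∩ interior B, f w = t := fun w hw =>
    le_antisymm (h1 w (interior_subset hw.1)) (h2 w (interior_subset hw.2))
  ext w
  -- f (z + ε w) = t for small ε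
  have hcont : Filter.Tendsto (fun ε : ℝ => z + ε • w) (nhds 0) (nhds z) := by
    have : Continuous (fun ε : ℝ => z + ε • w) := by fun_prop
    simpa using this.tendsto 0
  have hev : ∀ᶠ ε : ℝ in nhdsWithin 0 {0}ᶜ, z + ε • w ∈ interior A ∩ interior B :=
    (hcont.eventually hopen).filter_mono nhdsWithin_le_nhds
  obtain ⟨ε, hε, hε0⟩ := (hev.and self_mem_nhdsWithin).exists
  have h3 := hval _ hε
  have h4 := hval z ⟨hzA, hzB⟩
  rw [map_add, h4, map_smul, smul_eq_mul] at h3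
  have h5 : ε * f w = 0 := by linarith
  rcases mul_eq_zero.mp h5 with h | h
  · exact absurd h hε0
  · simpa using h

/-- Two large copies and a corner fit in the centred parallelogram. -/
structure Arr (u v : ℂ) (w : ℂ) (cx cy η r : ℝ) : Prop where
  nw : ‖w‖ = 1
  eta : 0 < η
  rpos : 0 < r
  rle : r ≤ 1
  g1 : |cx| + (1 / 2 + η) * ((|fx u v (w * u)| + |fx u v (w * v)|) / 2) ≤ 1 / 2
  g2 : |cy| + (1 / 2 + η) * ((|fy u v (w * u)| + |fy u v (w * v)|) / 2) ≤ 1 / 2
  g3 : (1 / 2 + η) / 2 ≤ fy u v ((starRingEnd ℂ) w * (cx * u + cy * v))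
  g4 : -(1 / 2) + r ≤ cy - (1 / 2 + η) * ((|fy u v (w * u)| + |fy u v (w * v)|) / 2)
  g5 : -cx + (1 / 2 + η) * ((|fx u v (w * u)| + |fx u v (w * v)|) / 2) ≤ 1 / 2 - r

lemma arr_of (h : det u v ≠ 0) (c0 s0 A B D : ℝ) (hcs : c0 ^ 2 + s0 ^ 2 = 1)
    (hA : A = (u.re ^ 2 + u.im ^ 2) * (s0 / det u v)) (hB : B = dot u v * (s0 / det u v))
    (hD : D = (v.re ^ 2 + v.im ^ 2) * (s0 / det u v)) (hA0 : 0 ≤ A) (hD0 : 0 ≤ D)
    (hB0 : 0 ≤ B) (hcB : B ≤ c0) (hX : (c0 + B + D) / 2 < 1) (hY : (A + c0 - B) / 2 < 1)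
    (hκ : 0 < (1 - A) * (c0 + B - 1)) : ∃ (w : ℂ) (cx cy η r : ℝ), Arr u v w cx cy η r := by
  set w : ℂ := ⟨c0, -s0⟩ with hw
  have hwu1 : fx u v (w * u) = c0 + B := by
    rw [fx_apply, hB, dot]
    simp only [hw, mul_re, mul_im]
    rw [det] at *
    field_simp
    ring
  have hwu2 : fy u v (w * u) = -A := by
    rw [fy_apply, hA]
    simp only [hw, mul_re, mul_im]
    rw [det] at *
    field_simp
    ring
  have hwv1 : fx u v (w * v) = D := by
    rw [fx_apply, hD]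
    simp only [hw, mul_re, mul_im]
    rw [det] at *
    field_simp
    ring
  have hwv2 : fy u v (w * v) = c0 - B := by
    rw [fy_apply, hB, dot]
    simp only [hw, mul_re, mul_im]
    rw [det] at *
    field_simp
    ring
  have hAD : A * D - B ^ 2 = s0 ^ 2 := by
    rw [hA, hB, hD, dot]
    rw [det] at *
    field_simp
    ring
  set X := (c0 + B + D) / 2 with hXd
  set Y := (A + c0 - B) / 2 with hYd
  have hX0 : 0 ≤ X := by rw [hXd]; linarith
  have hY0 : 0 ≤ Y := by rw [hYd]; linarith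
  have eX : (|fx u v (w * u)| + |fx u v (w * v)|) / 2 = X := by
    rw [hwu1, hwv1, abs_of_nonneg (by linarith), abs_of_nonneg hD0]
  have eY : (|fy u v (w * u)| + |fy u v (w * v)|) / 2 = Y := by
    rw [hwu2, hwv2, abs_neg, abs_of_nonneg hA0, abs_of_nonneg (by linarith : 0 ≤ c0 - B), hYd]
    ring
  set κ := (1 - A) * (c0 + B - 1) with hκd
  set ξ := min (1 - X) (1 - Y) with hξd
  have hξ : 0 < ξ := lt_min (by linarith) (by linarith)
  have hξX : X + ξ ≤ 1 := by have := min_le_left (1 - X) (1 - Y); linarith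
  have hξY : Y + ξ ≤ 1 := by have := min_le_right (1 - X) (1 - Y); linarith
  have hM : 0 < A * X + (c0 + B) * Y + 1 / 2 := by
    have h1 : 0 ≤ A * X := mul_nonneg hA0 hX0
    have h2 : 0 ≤ (c0 + B) * Y := mul_nonneg (by linarith) hY0
    linarith
  set M := A * X + (c0 + B) * Y + 1 / 2 with hMd
  set η := min (ξ / 4) (κ / (2 * M)) with hηd
  have hη : 0 < η := lt_min (by linarith) (by positivity)
  have hη1 : η ≤ ξ / 4 := min_le_left _ _
  have hη2 : η * M ≤ κ / 2 := by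
    have h1 : η ≤ κ / (2 * M) := min_le_right _ _
    calc η * M ≤ κ / (2 * M) * M := mul_le_mul_of_nonneg_right h1 hM.le
      _ = κ / 2 := by field_simp
  refine ⟨w, 1 / 2 - (1 / 2 + η) * X, 1 / 2 - (1 / 2 + η) * Y, η, ξ / 2, ?_⟩
  have bb : ∀ Z : ℝ, 0 ≤ Z → Z + ξ ≤ 1 → (1 / 2 + η) * Z ≤ 1 / 2 - ξ / 4 := by
    intro Z hZ0 hZ1
    have h1 : η * Z ≤ η * 1 := mul_le_mul_of_nonneg_left (by linarith only [hZ1, hξ]) hη.le
    linarith only [h1, hη1, hZ1]
  have bX : (1 / 2 + η) * X ≤ 1 / 2 - ξ / 4 := bb X hX0 hξX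
  have bY : (1 / 2 + η) * Y ≤ 1 / 2 - ξ / 4 := bb Y hY0 hξY
  refine ⟨?_, hη, by linarith only [hξ], by linarith only [hξX, hX0], ?_, ?_, ?_, ?_, ?_⟩
  · rw [Complex.norm_def, Complex.normSq_apply]
    simp only [hw]
    rw [show c0 * c0 + -s0 * -s0 = 1 by linarith [hcs]]
    exact Real.sqrt_one
  · rw [eX, abs_of_nonneg (by linarith only [bX, hξ])]
    linarith only
  · rw [eY, abs_of_nonneg (by linarith only [bY, hξ])]
    linarith only
  · set cx := 1 / 2 - (1 / 2 + η) * X with hcx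
    set cy := 1 / 2 - (1 / 2 + η) * Y with hcy
    have e1 : fy u v ((starRingEnd ℂ) w * ((cx : ℝ) * u + (cy : ℝ) * v)) =
        A * cx + (c0 + B) * cy := by
      rw [fy_apply, hA, hB, dot]
      simp only [hw, mul_re, mul_im, add_re, add_im, conj_re, conj_im, ofReal_re, ofReal_im]
      rw [det] at *
      field_simp
      ring
    rw [e1]
    have e2 : A * cx + (c0 + B) * cy = 1 / 4 + κ / 2 - η * (A * X + (c0 + B) * Y) := by
      rw [hcx, hcy, hXd, hYd, hκd]
      have : s0 ^ 2 = 1 - c0 ^ 2 := by linarith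
      rw [this] at hAD
      linear_combination (1 / 4 : ℝ) * (-hAD)
    rw [e2]
    have h5 : η * M = η * (A * X + (c0 + B) * Y) + η / 2 := by rw [hMd]; ring
    linarith only [h5, hη2]
  · rw [eY]
    linarith only [bY, hξ]
  · rw [eX]
    linarith only [bX, hξ]

end Pool.Agent.H90.Clone
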