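import Pool.Agent.H90.Clone.Exist

set_option autoImplicit false

/-!
# Packing scaled copies of a centred parallelogram that is not a square
-/

namespace Pool.Agent.H90.Clone

open Complex Set

variable {u v : ℂ}

/-- the placement `z ↦ w * (c * z) + b` -/
def plc (w b : ℂ) (c : ℝ) (S : Set ℂ) : Set ℂ := (fun z => w * ((c : ℂ) * z) + b) '' S

/-- centre of the square with lower left corner `p` and side `c` -/
noncomputable def ctr (u v : ℂ) (p : ℝ × ℝ) (c : ℝ) : ℂ :=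
  ((p.1 + c / 2 - 1 / 2 : ℝ) : ℂ) * u + ((p.2 + c / 2 - 1 / 2 : ℝ) : ℂ) * v

lemma box_bounds (h : det u v ≠ 0) {p : ℝ × ℝ} {c : ℝ} (hc : 0 ≤ c) {z : ℂ}
    (hz : z ∈ plc 1 (ctr u v p c) c (Cen u v)) :
    (p.1 - 1 / 2 ≤ fx u v z ∧ fx u v z ≤ p.1 + c - 1 / 2) ∧
      (p.2 - 1 / 2 ≤ fy u v z ∧ fy u v z ≤ p.2 + c - 1 / 2) := by
  obtain ⟨z', hz', rfl⟩ := hz
  obtain ⟨x, y, hx, hy, rfl⟩ := hz'
  have e : (1 : ℂ) * ((c : ℂ) * ((x : ℂ) * u + (y : ℂ) * v)) + ctr u v p c =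
      ((c * x + (p.1 + c / 2 - 1 / 2) : ℝ) : ℂ) * u + ((c * y + (p.2 + c / 2 - 1 / 2) : ℝ) : ℂ) * v := by
    rw [ctr]
    push_cast
    ring
  simp only [e]
  rw [fx_comb h, fy_comb h]
  rw [abs_le] at hx hy
  have h1 : c * (-(1 / 2)) ≤ c * x := mul_le_mul_of_nonneg_left hx.1 hc
  have h2 : c * x ≤ c * (1 / 2) := mul_le_mul_of_nonneg_left hx.2 hc
  have h3 : c * (-(1 / 2)) ≤ c * y := mul_le_mul_of_nonneg_left hy.1 hc
  have h4 : c * y ≤ c * (1 / 2) := mul_le_mul_of_nonneg_left hy.2 hc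
  refine ⟨⟨?_, ?_⟩, ?_, ?_⟩ <;> linarith

lemma box_sep (h : det u v ≠ 0) {p q : ℝ × ℝ} {a b : ℝ} (ha : 0 ≤ a) (hb : 0 ≤ b)
    (hs : Sep p q a b) :
    SepSets (plc 1 (ctr u v p a) a (Cen u v)) (plc 1 (ctr u v q b) b (Cen u v)) := by
  rcases hs with hs | hs | hs | hs
  · refine ⟨fx u v, p.1 + a - 1 / 2, fx_ne h, fun z hz => (box_bounds h ha hz).1.2, fun z hz => ?_⟩
    have := (box_bounds h hb hz).1.1
    linarith
  · refine SepSets.symm ⟨fx u v, q.1 + b - 1 / 2, fx_ne h, fun z hz => (box_bounds h hb hz).1.2,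
      fun z hz => ?_⟩
    have := (box_bounds h ha hz).1.1
    linarith
  · refine ⟨fy u v, p.2 + a - 1 / 2, fy_ne h, fun z hz => (box_bounds h ha hz).2.2, fun z hz => ?_⟩
    have := (box_bounds h hb hz).2.1
    linarith
  · refine SepSets.symm ⟨fy u v, q.2 + b - 1 / 2, fy_ne h, fun z hz => (box_bounds h hb hz).2.2,
      fun z hz => ?_⟩
    have := (box_bounds h ha hz).2.1
    linarith

lemma box_sub (h : det u v ≠ 0) {p : ℝ × ℝ} {c : ℝ} (hc : 0 ≤ c)
    (h1 : 0 ≤ p.1) (h2 : p.1 + c ≤ 1) (h3 : 0 ≤ p.2) (h4 : p.2 + c ≤ 1) :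
    plc 1 (ctr u v p c) c (Cen u v) ⊆ Cen u v := by
  intro z hz
  obtain ⟨⟨b1, b2⟩, b3, b4⟩ := box_bounds h hc hz
  rw [mem_Cen h, abs_le, abs_le]
  refine ⟨⟨?_, ?_⟩, ?_, ?_⟩ <;> linarith

/-- bounds of a functional on a placement -/
lemma rot_bounds (f : ℂ →L[ℝ] ℝ) {w b : ℂ} {c : ℝ} (hc : 0 ≤ c) {z : ℂ}
    (hz : z ∈ plc w b c (Cen u v)) :
    |f z - f b| ≤ c * ((|f (w * u)| + |f (w * v)|) / 2) := by
  obtain ⟨z', hz', rfl⟩ := hz
  set g : ℂ →L[ℝ] ℝ := f.comp (ContinuousLinearMap.mul ℝ ℂ w) with hg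
  have h1 : |g z'| ≤ (|g u| + |g v|) / 2 := bound_Cen g hz'
  have h2 : ∀ a, g a = f (w * a) := fun a => rfl
  rw [h2, h2, h2] at h1
  have h3 : f (w * ((c : ℂ) * z') + b) - f b = c * f (w * z') := by
    have e : w * ((c : ℂ) * z') = c • (w * z') := by rw [real_smul]; ring
    rw [map_add, e, map_smul, smul_eq_mul]
    ring
  simp only [h3]
  rw [abs_mul, abs_of_nonneg hc]
  exact mul_le_mul_of_nonneg_left h1 hc

/-- the family `c` is packed in `s` times the centred parallelogram. -/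
def Good (u v : ℂ) (n : ℕ) (c : Fin n → ℝ) (s : ℝ) : Prop :=
  ∃ w b : Fin n → ℂ, (∀ i, ‖w i‖ = 1) ∧
    (∀ i, ∀ z ∈ Cen u v, ∃ z' ∈ Cen u v, w i * ((c i : ℂ) * z) + b i = (s : ℂ) * z') ∧
    ∀ i j, i ≠ j →
      SepSets (plc (w i) (b i) (c i) (Cen u v)) (plc (w j) (b j) (c j) (Cen u v))

lemma good_of_Pk (h : det u v ≠ 0) {n : ℕ} {c : Fin n → ℝ} (hc : ∀ i, 0 < c i) {l : List (Fin n)}
    (hl : ∀ i, i ∈ l) (hp : Pk c l 0 0 1 1) : Good u v n c 1 := by
  obtain ⟨p, hp, hs⟩ := hp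
  refine ⟨fun _ => 1, fun i => ctr u v (p i) (c i), fun _ => norm_one, ?_, ?_⟩
  · intro i z hz
    obtain ⟨h1, h2, h3, h4⟩ := hp i (hl i)
    refine ⟨_, box_sub h (hc i).le h1 h2 h3 h4 ⟨z, hz, rfl⟩, ?_⟩
    simp
  · intro i j hij
    have : Std.Symm (fun i j => Sep (p i) (p j) (c i) (c j)) := ⟨fun i j h => h.symm⟩
    exact box_sep h (hc i).le (hc j).le (hs.forall (hl i) (hl j) hij)

/-- two large copies -/
lemma good_two (h : det u v ≠ 0) {w : ℂ} {cx cy η r : ℝ} (ha : Arr u v w cx cy η r)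
    {n : ℕ} {c : Fin n → ℝ} (hc : ∀ i, 0 < c i) (i0 i1 : Fin n) (l : List (Fin n))
    (hl : ∀ i, i ∈ i0 :: i1 :: l) (hn : (i0 :: i1 :: l).Nodup)
    (hs : (i0 :: i1 :: l).Pairwise (fun i j => c j ≤ c i))
    (h0 : c i0 ≤ 1 / 2 + η) (hsum : sq c l ≤ r ^ 2 / 2) : Good u v n c 1 := by
  classical
  have hs' := hs
  rw [List.pairwise_cons, List.pairwise_cons] at hs'
  obtain ⟨hs0, hs1, hsl⟩ := hs'
  have h1 : c i1 ≤ 1 / 2 + η := (hs0 i1 (by simp)).trans h0
  rw [List.nodup_cons, List.nodup_cons] at hn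
  obtain ⟨hn0, hn1, hnl⟩ := hn
  have hi01 : i0 ≠ i1 := fun e => hn0 (by simp [e])
  obtain ⟨p, hp, hps⟩ := moonMoser l hnl hsl (fun i _ => hc i) ha.rpos.le hsum (1 - r) 0
  set cen : ℂ := (cx : ℂ) * u + (cy : ℂ) * v with hcen
  have hfxc : fx u v cen = cx := fx_comb h cx cy
  have hfyc : fy u v cen = cy := fy_comb h cx cy
  set X := (|fx u v (w * u)| + |fx u v (w * v)|) / 2 with hX
  set Y := (|fy u v (w * u)| + |fy u v (w * v)|) / 2 with hY
  have hX0 : 0 ≤ X := by positivity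
  have hY0 : 0 ≤ Y := by positivity
  -- the rotated copies
  have big_sub : ∀ (b : ℂ) (a : ℝ), 0 ≤ a → a ≤ 1 / 2 + η → |fx u v b| = |cx| → |fy u v b| = |cy| →
      plc w b a (Cen u v) ⊆ Cen u v := by
    intro b a ha0 ha1 hb1 hb2 z hz
    have e1 := rot_bounds (fx u v) ha0 hz
    have e2 := rot_bounds (fy u v) ha0 hz
    rw [mem_Cen h]
    have f1 : a * X ≤ (1 / 2 + η) * X := mul_le_mul_of_nonneg_right ha1 hX0
    have f2 : a * Y ≤ (1 / 2 + η) * Y := mul_le_mul_of_nonneg_right ha1 hY0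
    have t1 : |fx u v z| ≤ |fx u v z - fx u v b| + |fx u v b| := by
      have := abs_add_le (fx u v z - fx u v b) (fx u v b)
      simpa using this
    have t2 : |fy u v z| ≤ |fy u v z - fy u v b| + |fy u v b| := by
      have := abs_add_le (fy u v z - fy u v b) (fy u v b)
      simpa using this
    have g1 := ha.g1
    have g2 := ha.g2
    rw [← hX] at e1 g1
    rw [← hY] at e2 g2
    rw [hb1] at t1
    rw [hb2] at t2
    constructor
    · linarith
    · linarith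
  have hc0 := (hc i0).le
  have hc1 := (hc i1).le
  -- separation of the two big copies
  have sep01 : SepSets (plc w cen (c i0) (Cen u v)) (plc w (-cen) (c i1) (Cen u v)) := by
    set g : ℂ →L[ℝ] ℝ := (fy u v).comp (ContinuousLinearMap.mul ℝ ℂ ((starRingEnd ℂ) w)) with hg
    have hww : (starRingEnd ℂ) w * w = 1 := by
      rw [← Complex.normSq_eq_conj_mul_self, Complex.normSq_eq_norm_sq, ha.nw]
      simp
    have hgw : ∀ a, g (w * a) = fy u v a := by
      intro a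
      change fy u v ((starRingEnd ℂ) w * (w * a)) = _
      rw [← mul_assoc, hww, one_mul]
    have hgc : g cen = fy u v ((starRingEnd ℂ) w * cen) := rfl
    have hg0 : g ≠ 0 := by
      intro h0'
      apply fy_ne h
      ext a
      rw [← hgw, h0']
      simp
    have hgu : g (w * u) = 0 := by
      rw [hgw]
      have := fy_comb h 1 0
      simpa using this
    have hgv : g (w * v) = 1 := by
      rw [hgw]
      have := fy_comb h 0 1
      simpa using this
    have g3 := ha.g3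
    rw [← hcen, ← hgc] at g3
    refine SepSets.symm ⟨g, 0, hg0, fun z hz => ?_, fun z hz => ?_⟩
    · have e := rot_bounds g hc1 hz
      rw [hgu, hgv, map_neg] at e
      simp only [abs_zero, abs_one, zero_add] at e
      rw [abs_le] at e
      linarith [e.2]
    · have e := rot_bounds g hc0 hz
      rw [hgu, hgv] at e
      simp only [abs_zero, abs_one, zero_add] at e
      rw [abs_le] at e
      linarith [e.1]
  have sep0 : ∀ i ∈ l, SepSets (plc w cen (c i0) (Cen u v))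
      (plc 1 (ctr u v (p i) (c i)) (c i) (Cen u v)) := by
    intro i hi
    refine SepSets.symm ⟨fy u v, -(1 / 2) + r, fy_ne h, fun z hz => ?_, fun z hz => ?_⟩
    · have := (box_bounds h (hc i).le hz).2.2
      have := (hp i hi).2.2.2
      linarith
    · have e := rot_bounds (fy u v) hc0 hz
      rw [hfyc, abs_le] at e
      have f2 : c i0 * Y ≤ (1 / 2 + η) * Y := mul_le_mul_of_nonneg_right h0 hY0
      have g4 := ha.g4
      rw [← hY] at e g4
      linarith [e.1]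
  have sep1 : ∀ i ∈ l, SepSets (plc w (-cen) (c i1) (Cen u v))
      (plc 1 (ctr u v (p i) (c i)) (c i) (Cen u v)) := by
    intro i hi
    refine ⟨fx u v, 1 / 2 - r, fx_ne h, fun z hz => ?_, fun z hz => ?_⟩
    · have e := rot_bounds (fx u v) hc1 hz
      rw [map_neg, hfxc, abs_le] at e
      have f2 : c i1 * X ≤ (1 / 2 + η) * X := mul_le_mul_of_nonneg_right h1 hX0
      have g5 := ha.g5
      rw [← hX] at e g5
      linarith [e.2]
    · have := (box_bounds h (hc i).le hz).1.1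
      have := (hp i hi).1
      linarith
  have hpi : ∀ i ∈ l, plc 1 (ctr u v (p i) (c i)) (c i) (Cen u v) ⊆ Cen u v := by
    intro i hi
    obtain ⟨q1, q2, q3, q4⟩ := hp i hi
    have := ha.rle
    exact box_sub h (hc i).le (by linarith) (by linarith) q3 (by linarith)
  have hps' : ∀ i ∈ l, ∀ j ∈ l, i ≠ j →
      SepSets (plc 1 (ctr u v (p i) (c i)) (c i) (Cen u v))
        (plc 1 (ctr u v (p j) (c j)) (c j) (Cen u v)) := by
    intro i hi j hj hij
    have : Std.Symm (fun i j => Sep (p i) (p j) (c i) (c j)) := ⟨fun i j h => h.symm⟩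
    exact box_sep h (hc i).le (hc j).le (hps.forall hi hj hij)
  -- assemble
  set W : Fin n → ℂ := fun i => if i = i0 then w else if i = i1 then w else 1 with hW
  set Bb : Fin n → ℂ := fun i => if i = i0 then cen else if i = i1 then -cen else ctr u v (p i) (c i)
    with hBb
  have W0 : W i0 = w := by simp [hW]
  have W1 : W i1 = w := by simp [hW]
  have B0 : Bb i0 = cen := by simp [hBb]
  have B1 : Bb i1 = -cen := by simp [hBb, hi01.symm]
  have hne0 : ∀ i ∈ l, i ≠ i0 := fun i hi e => hn0 (by rw [← e]; simp [hi])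
  have hne1 : ∀ i ∈ l, i ≠ i1 := fun i hi e => hn1 (by rw [← e]; exact hi)
  have Wl : ∀ i ∈ l, W i = 1 := fun i hi => by simp [hW, hne0 i hi, hne1 i hi]
  have Bl : ∀ i ∈ l, Bb i = ctr u v (p i) (c i) := fun i hi => by simp [hBb, hne0 i hi, hne1 i hi]
  have hcases : ∀ i, i = i0 ∨ i = i1 ∨ i ∈ l := by
    intro i
    have := hl i
    simpa using this
  refine ⟨W, Bb, ?_, ?_, ?_⟩
  · intro i
    rcases hcases i with rfl | rfl | hi
    · rw [W0]; exact ha.nw
    · rw [W1]; exact ha.nw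
    · rw [Wl i hi]; exact norm_one
  · intro i
    have key : plc (W i) (Bb i) (c i) (Cen u v) ⊆ Cen u v := by
      rcases hcases i with rfl | rfl | hi
      · rw [W0, B0]
        exact big_sub cen _ hc0 h0 (by rw [hfxc]) (by rw [hfyc])
      · rw [W1, B1]
        exact big_sub (-cen) _ hc1 h1 (by rw [map_neg, abs_neg, hfxc]) (by rw [map_neg, abs_neg, hfyc])
      · rw [Wl i hi, Bl i hi]
        exact hpi i hi
    intro z hz
    refine ⟨_, key ⟨z, hz, rfl⟩, ?_⟩
    simp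
  · intro i j hij
    rcases hcases i with rfl | rfl | hi <;> rcases hcases j with rfl | rfl | hj
    · exact absurd rfl hij
    · rw [W0, B0, W1, B1]; exact sep01
    · rw [W0, B0, Wl j hj, Bl j hj]; exact sep0 j hj
    · rw [W0, B0, W1, B1]; exact sep01.symm
    · exact absurd rfl hij
    · rw [W1, B1, Wl j hj, Bl j hj]; exact sep1 j hj
    · rw [W0, B0, Wl i hi, Bl i hi]; exact (sep0 i hi).symm
    · rw [W1, B1, Wl i hi, Bl i hi]; exact (sep1 i hi).symm
    · rw [Wl i hi, Bl i hi, Wl j hj, Bl j hj]; exact hps' i hi j hj hij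

end Pool.Agent.H90.Clone
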