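import Mathlib

set_option autoImplicit false

/-!
# Packing squares into a rectangle (Moon and Moser, Meir and Moser), shelf algorithm
-/

namespace Pool.Agent.H90.Clone

/-- The squares with lower left corners `P`, `Q` and sides `a`, `b` are separated by an axis-parallel line. -/
def Sep (P Q : ℝ × ℝ) (a b : ℝ) : Prop :=
  P.1 + a ≤ Q.1 ∨ Q.1 + b ≤ P.1 ∨ P.2 + a ≤ Q.2 ∨ Q.2 + b ≤ P.2

lemma Sep.symm {P Q : ℝ × ℝ} {a b : ℝ} (h : Sep P Q a b) : Sep Q P b a := by
  rcases h with h | h | h | h
  · exact Or.inr (Or.inl h)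
  · exact Or.inl h
  · exact Or.inr (Or.inr (Or.inr h))
  · exact Or.inr (Or.inr (Or.inl h))

/-- The squares with sides `c i`, `i ∈ l`, are packed in the rectangle `[x0, x1] × [y0, y1]`. -/
def Pk {ι : Type} (c : ι → ℝ) (l : List ι) (x0 y0 x1 y1 : ℝ) : Prop :=
  ∃ p : ι → ℝ × ℝ,
    (∀ i ∈ l, x0 ≤ (p i).1 ∧ (p i).1 + c i ≤ x1 ∧ y0 ≤ (p i).2 ∧ (p i).2 + c i ≤ y1) ∧
    l.Pairwise (fun i j => Sep (p i) (p j) (c i) (c j))

variable {ι : Type} {c : ι → ℝ}

lemma Pk.nil (x0 y0 x1 y1 : ℝ) : Pk c [] x0 y0 x1 y1 :=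
  ⟨fun _ => 0, by simp, List.Pairwise.nil⟩

lemma Pk.mono {l : List ι} {x0 y0 x1 y1 x0' y0' x1' y1' : ℝ} (h : Pk c l x0 y0 x1 y1)
    (h1 : x0' ≤ x0) (h2 : y0' ≤ y0) (h3 : x1 ≤ x1') (h4 : y1 ≤ y1') :
    Pk c l x0' y0' x1' y1' := by
  obtain ⟨p, hp, hs⟩ := h
  refine ⟨p, fun i hi => ?_, hs⟩
  obtain ⟨a1, a2, a3, a4⟩ := hp i hi
  exact ⟨h1.trans a1, a2.trans h3, h2.trans a3, a4.trans h4⟩

lemma Pk.append [DecidableEq ι] {l1 l2 : List ι} {x0 y0 x1 y1 x0' y0' x1' y1' : ℝ}
    (hn : (l1 ++ l2).Nodup)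
    (h : Pk c l1 x0 y0 x1 y1) (h' : Pk c l2 x0' y0' x1' y1')
    (hsep : x1 ≤ x0' ∨ y1 ≤ y0') {X0 Y0 X1 Y1 : ℝ}
    (a1 : X0 ≤ x0) (a2 : X0 ≤ x0') (a3 : Y0 ≤ y0) (a4 : Y0 ≤ y0')
    (b1 : x1 ≤ X1) (b2 : x1' ≤ X1) (b3 : y1 ≤ Y1) (b4 : y1' ≤ Y1) :
    Pk c (l1 ++ l2) X0 Y0 X1 Y1 := by
  obtain ⟨p, hp, hs⟩ := h.mono a1 a3 b1 b3
  obtain ⟨q, hq, ht⟩ := h'.mono a2 a4 b2 b4
  obtain ⟨p, hp, hs⟩ := h
  obtain ⟨q, hq, ht⟩ := h'
  rw [List.nodup_append] at hn
  obtain ⟨hn1, hn2, hn3⟩ := hn
  have hne : ∀ i ∈ l2, i ∉ l1 := fun i hi hi' => hn3 i hi' i hi rfl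
  refine ⟨fun i => if i ∈ l1 then p i else q i, ?_, ?_⟩
  · intro i hi
    by_cases hil : i ∈ l1
    · simp only [hil, if_true]
      obtain ⟨c1, c2, c3, c4⟩ := hp i hil
      exact ⟨by linarith, by linarith, by linarith, by linarith⟩
    · simp only [hil, if_false]
      have hi2 : i ∈ l2 := by
        rcases List.mem_append.mp hi with h | h
        · exact absurd h hil
        · exact h
      obtain ⟨c1, c2, c3, c4⟩ := hq i hi2
      exact ⟨by linarith, by linarith, by linarith, by linarith⟩
  · rw [List.pairwise_append]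
    refine ⟨?_, ?_, ?_⟩
    · refine hs.imp_of_mem ?_
      intro a b ha hb hab
      simpa only [ha, hb, if_true] using hab
    · refine ht.imp_of_mem ?_
      intro a b ha hb hab
      simpa only [hne a ha, hne b hb, if_false] using hab
    · intro a ha b hb
      simp only [ha, hne b hb, if_true, if_false]
      obtain ⟨c1, c2, c3, c4⟩ := hp a ha
      obtain ⟨d1, d2, d3, d4⟩ := hq b hb
      rcases hsep with h | h
      · exact Or.inl (by linarith)
      · exact Or.inr (Or.inr (Or.inl (by linarith)))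

lemma Pk.single {i : ι} {x0 y0 x1 y1 : ℝ} (h1 : x0 + c i ≤ x1) (h2 : y0 + c i ≤ y1) :
    Pk c [i] x0 y0 x1 y1 :=
  ⟨fun _ => (x0, y0), by simpa using ⟨h1, h2⟩, List.pairwise_singleton _ _⟩

/-- one shelf -/
lemma Pk.shelf [DecidableEq ι] (l : List ι) (hn : l.Nodup) (x0 y0 A h : ℝ)
    (hpos : ∀ i ∈ l, 0 ≤ c i) (hh : ∀ i ∈ l, c i ≤ h) (hA : (l.map c).sum ≤ A) :
    Pk c l x0 y0 (x0 + A) (y0 + h) := by
  induction l generalizing x0 A with
  | nil => exact Pk.nil _ _ _ _
  | cons i l ih =>
    have hn' := hn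
    rw [List.nodup_cons] at hn'
    simp only [List.map_cons, List.sum_cons] at hA
    have hsum : 0 ≤ (l.map c).sum := by
      apply List.sum_nonneg
      intro a ha
      obtain ⟨j, hj, rfl⟩ := List.mem_map.mp ha
      exact hpos j (List.mem_cons_of_mem _ hj)
    have hi := hh i List.mem_cons_self
    have hi0 := hpos i List.mem_cons_self
    have h1 : Pk c [i] x0 y0 (x0 + c i) (y0 + h) := Pk.single le_rfl (by linarith)
    have h2 := ih hn'.2 (x0 + c i) (A - c i) (fun j hj => hpos j (List.mem_cons_of_mem _ hj))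
      (fun j hj => hh j (List.mem_cons_of_mem _ hj)) (by linarith)
    exact Pk.append (l1 := [i]) (l2 := l) hn h1 h2 (Or.inl le_rfl) le_rfl (by linarith) le_rfl le_rfl
      (by linarith) (by linarith) le_rfl le_rfl

/-- the greedy prefix -/
lemma greedy (l : List ι) (A : ℝ) (hA : 0 ≤ A) :
    ∃ l1 l2 : List ι, l = l1 ++ l2 ∧ (l1.map c).sum ≤ A ∧
      (l2 = [] ∨ ∃ y t, l2 = y :: t ∧ A < (l1.map c).sum + c y) := by
  induction l generalizing A with
  | nil => exact ⟨[], [], rfl, by simpa using hA, Or.inl rfl⟩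
  | cons i l ih =>
    by_cases h : c i ≤ A
    · obtain ⟨l1, l2, h1, h2, h3⟩ := ih (A - c i) (by linarith)
      refine ⟨i :: l1, l2, by rw [h1]; rfl, by simp only [List.map_cons, List.sum_cons]; linarith, ?_⟩
      rcases h3 with h3 | ⟨y, t, h3, h4⟩
      · exact Or.inl h3
      · exact Or.inr ⟨y, t, h3, by simp only [List.map_cons, List.sum_cons]; linarith⟩
    · exact ⟨[], i :: l, rfl, by simpa using hA, Or.inr ⟨i, l, rfl, by simpa using not_le.mp h⟩⟩

/-- sum of squares -/
noncomputable def sq (c : ι → ℝ) (l : List ι) : ℝ := (l.map (fun i => c i ^ 2)).sum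

lemma sq_nil : sq c [] = 0 := rfl

lemma sq_cons (i : ι) (l : List ι) : sq c (i :: l) = c i ^ 2 + sq c l := by simp [sq]

lemma sq_append (l1 l2 : List ι) : sq c (l1 ++ l2) = sq c l1 + sq c l2 := by simp [sq]

lemma sq_nonneg' (l : List ι) : 0 ≤ sq c l := by
  apply List.sum_nonneg
  intro a ha
  obtain ⟨j, _, rfl⟩ := List.mem_map.mp ha
  positivity

lemma sq_ge (l : List ι) {y : ℝ} (hy : 0 ≤ y) (h : ∀ i ∈ l, y ≤ c i) :
    y * (l.map c).sum ≤ sq c l := by
  induction l with
  | nil => simp [sq]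
  | cons i l ih =>
    rw [sq_cons, List.map_cons, List.sum_cons]
    have h1 := h i List.mem_cons_self
    have h2 := ih (fun j hj => h j (List.mem_cons_of_mem _ hj))
    nlinarith

/-- **Meir and Moser**: squares in decreasing order are packed in an `A × B` rectangle as soon as
`Σ c i ^ 2 ≤ c₁ ^ 2 + (A - c₁) (B - c₁)`. -/
theorem meirMoser [DecidableEq ι] : ∀ (k : ℕ) (l : List ι), l.length ≤ k → l.Nodup →
    l.Pairwise (fun i j => c j ≤ c i) → (∀ i ∈ l, 0 < c i) → ∀ A B : ℝ,
    (∀ i t, l = i :: t → c i ≤ A ∧ c i ≤ B ∧ sq c l ≤ c i ^ 2 + (A - c i) * (B - c i)) →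
    ∀ x0 y0 : ℝ, Pk c l x0 y0 (x0 + A) (y0 + B) := by
  intro k
  induction k with
  | zero =>
    intro l hl _ _ _ A B _ x0 y0
    have : l = [] := List.length_eq_zero_iff.mp (Nat.le_zero.mp hl)
    rw [this]
    exact Pk.nil _ _ _ _
  | succ k ih =>
    intro l hl hn hs hpos A B h x0 y0
    cases l with
    | nil => exact Pk.nil _ _ _ _
    | cons i l =>
      obtain ⟨hA, hB, hsum⟩ := h i l rfl
      rw [sq_cons] at hsum
      have hi : 0 < c i := hpos i List.mem_cons_self
      obtain ⟨l1, l2, hl12, h1, h2⟩ := greedy (c := c) l (A - c i) (by linarith)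
      subst hl12
      rw [List.pairwise_cons] at hs
      obtain ⟨hsi, hs⟩ := hs
      rw [List.pairwise_append] at hs
      obtain ⟨hs1, hs2, hs12⟩ := hs
      have hn' : ((i :: l1) ++ l2).Nodup := by simpa using hn
      have hshelf : Pk c (i :: l1) x0 y0 (x0 + A) (y0 + c i) := by
        apply Pk.shelf
        · exact (List.nodup_append.mp hn').1
        · intro j hj
          rcases List.mem_cons.mp hj with rfl | hj
          · exact hi.le
          · exact (hpos j (by simp [hj])).le
        · intro j hj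
          rcases List.mem_cons.mp hj with rfl | hj
          · exact le_rfl
          · exact hsi j (by simp [hj])
        · simp only [List.map_cons, List.sum_cons]
          linarith
      rcases h2 with h2 | ⟨y, t, h2, h3⟩
      · subst h2
        rw [List.append_nil]
        exact hshelf.mono le_rfl le_rfl le_rfl (by linarith)
      · -- the rest goes above
        have hyl : y ∈ l2 := by rw [h2]; exact List.mem_cons_self
        have hy0 : 0 < c y := hpos y (by simp [hyl])
        have hyi : c y ≤ c i := hsi y (by simp [hyl])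
        have hsq1 : c y * (l1.map c).sum ≤ sq c l1 :=
          sq_ge l1 hy0.le (fun j hj => hs12 j hj y hyl)
        rw [sq_append] at hsum
        have hsq2 : c y ^ 2 ≤ sq c l2 := by
          rw [h2, sq_cons]
          have := sq_nonneg' (c := c) t
          linarith
        have hkey : sq c l2 ≤ (A - c i) * (B - c i) - c y * (A - c i - c y) := by
          nlinarith
        have hyB : c y ≤ B - c i := by
          by_contra hcon
          push Not at hcon
          rcases eq_or_lt_of_le hA with hAi | hAi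
          · rw [← hAi] at hkey
            nlinarith
          · nlinarith
        have hrest : Pk c l2 x0 (y0 + c i) (x0 + A) (y0 + c i + (B - c i)) := by
          apply ih l2 _ _ hs2
          · intro j hj
            exact hpos j (by simp [hj])
          · intro j t' hjt
            have hjy : j = y := by
              rw [h2] at hjt
              exact (List.cons.inj hjt).1.symm
            subst hjy
            refine ⟨by linarith, hyB, ?_⟩
            nlinarith [mul_nonneg (sub_nonneg.mpr hyi) (sub_nonneg.mpr hyB)]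
          · simp only [List.length_cons, List.length_append] at hl
            omega
          · exact (List.nodup_append.mp hn').2.1
        have := Pk.append (l1 := i :: l1) (l2 := l2) hn' hshelf hrest (Or.inr le_rfl)
          (X0 := x0) (Y0 := y0) (X1 := x0 + A) (Y1 := y0 + B) le_rfl le_rfl le_rfl (by linarith)
          le_rfl le_rfl (by linarith) (by linarith)
        simpa using this

/-- Moon and Moser: total area at most half of that of a square container. -/
theorem moonMoser [DecidableEq ι] (l : List ι) (hn : l.Nodup)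
    (hs : l.Pairwise (fun i j => c j ≤ c i)) (hpos : ∀ i ∈ l, 0 < c i) {r : ℝ} (hr : 0 ≤ r)
    (hsum : sq c l ≤ r ^ 2 / 2) (x0 y0 : ℝ) : Pk c l x0 y0 (x0 + r) (y0 + r) := by
  apply meirMoser l.length l le_rfl hn hs hpos
  intro i t h
  have h1 : c i ^ 2 ≤ sq c l := by
    rw [h, sq_cons]
    have := sq_nonneg' (c := c) t
    linarith
  have hi : 0 < c i := hpos i (by rw [h]; exact List.mem_cons_self)
  have h2 : c i ≤ r := by
    by_contra hcon
    push Not at hcon
    nlinarith
  refine ⟨h2, h2, ?_⟩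
  nlinarith [sq_nonneg (2 * c i - r)]

/-- The case where the two largest squares fit side by side. -/
theorem twoInRow [DecidableEq ι] (i j : ι) (l : List ι) (hn : (i :: j :: l).Nodup)
    (hs : (i :: j :: l).Pairwise (fun i j => c j ≤ c i)) (hpos : ∀ k ∈ i :: j :: l, 0 < c k)
    (hij : c i + c j ≤ 1) (hi1 : 2 / 5 ≤ c i) (hi2 : c i ≤ 3 / 5)
    (hsum : sq c (i :: j :: l) ≤ 1 / 2 + 1 / 50) : Pk c (i :: j :: l) 0 0 1 1 := by
  have hi : 0 < c i := hpos i (by simp)
  have hj : 0 < c j := hpos j (by simp)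
  have hji : c j ≤ c i := by
    rw [List.pairwise_cons] at hs
    exact hs.1 j (by simp)
  have h1 : Pk c [i, j] 0 0 (0 + 1) (0 + c i) := by
    apply Pk.shelf
    · have : ([i, j] ++ l).Nodup := by simpa using hn
      exact (List.nodup_append.mp this).1
    · intro k hk
      simp only [List.mem_cons, List.not_mem_nil, or_false] at hk
      rcases hk with rfl | rfl
      · exact hi.le
      · exact hj.le
    · intro k hk
      simp only [List.mem_cons, List.not_mem_nil, or_false] at hk
      rcases hk with rfl | rfl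
      · exact le_rfl
      · exact hji
    · simpa using hij
  have hsl : l.Pairwise (fun i j => c j ≤ c i) := by
    rw [List.pairwise_cons, List.pairwise_cons] at hs
    exact hs.2.2
  have h2 : Pk c l 0 (0 + c i) (0 + 1) (0 + c i + (1 - c i)) := by
    apply meirMoser l.length l le_rfl _ hsl (fun k hk => hpos k (by simp [hk]))
    · intro k t hkt
      have hkl : k ∈ l := by rw [hkt]; exact List.mem_cons_self
      have hk : 0 < c k := hpos k (by simp [hkl])
      have hkj : c k ≤ c j := by
        rw [List.pairwise_cons, List.pairwise_cons] at hs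
        exact hs.2.1 k hkl
      refine ⟨by linarith, by linarith, ?_⟩
      rw [sq_cons, sq_cons] at hsum
      nlinarith [sq_nonneg (6 * c k - (2 - c i)), sq_nonneg (c i - 1 / 2), mul_nonneg hk.le (sub_nonneg.mpr hkj)]
    · have : ([i, j] ++ l).Nodup := by simpa using hn
      exact (List.nodup_append.mp this).2.1
  have := Pk.append (l1 := [i, j]) (l2 := l) (by simpa using hn) h1 h2 (Or.inr le_rfl)
    (X0 := 0) (Y0 := 0) (X1 := 1) (Y1 := 1) le_rfl le_rfl le_rfl (by linarith)
    (by linarith) (by linarith) (by linarith) (by linarith)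
  simpa using this

end Pool.Agent.H90.Clone
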